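import Pool.Agent.H54.NF.NFT

/-!
# MP_e37c09_lc: no new sequences over HOD

Let `δ` be extendible. Then every singular cardinal above `δ` is singular in HOD and its successor
is computed correctly by HOD, or there is `δ₀ < δ` such that for every ordinal `θ` of cofinality
greater than `δ₀` and every function `f` on `θ`:

(1) if `f ↾ ξ` is in HOD for all `ξ < θ` then `f` is in HOD;

(2) if `(2 ^ μ)⁺ < cof θ` and each `f ↾ ξ`, `ξ < θ`, is an element of an ordinal definable set with
at most `μ` elements then `f` is an element of an ordinal definable set with at most `μ` elements;

(3) if `(2 ^ μ)⁺ < cof θ` and `p` is a set such that `V_(rank p + 1)` has at most `μ` elements, and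
each `f ↾ ξ`, `ξ < θ`, is definable from `p` and ordinals, then `f` is definable from `p` and
ordinals;

and

(4) every coherent sequence of length `θ` in HOD has a thread in HOD.

Proof. In the second case the ordinal definable subsets of `S = {α < θ : cof α = ω}` are decided by
the club filter below a stationary ordinal definable set `c` (an atom). Decision lemma: a subset
`A` of `c` all of whose proper initial segments are in HOD contains or misses almost all of `c`.
Otherwise `c` is split by sets in HOD at stationary many points of one uncountable cofinality, and
the least splitting sets, integrated along an atom of that cofinality, give an ordinal definable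
splitting of `c`. Now order the sequences all of whose proper initial segments are in HOD by
`f < g` if `f ↾ γ` is before `g ↾ γ` in HOD for almost all `γ` in `c`. This is an ordinal definable
well-ordering, so the least such sequence which is not ordinal definable is ordinal definable.
A countably complete ultrafilter on `θ` gives a thread of a coherent sequence in `V`; all its proper
initial segments are in HOD, so it is in HOD by (1).
-/

open Cardinal Order

universe u

theorem Pool.Agent.H45.Kept.NoNewSequences.result
    (δ : Ordinal.{u}) (hδ : HD.Extendible δ) : HD.CaseA δ ∨
      ∃ δ₀ < δ, ∀ θ : Ordinal.{u}, δ₀ < θ.cof.ord → HD.NF.NoNew θ ∧ HD.NF.HThr θ :=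
  Pool.Agent.H54.NF.NFT.nft1 δ hδ
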